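import Mathlib
import Pool.Agent.H17.Pb

namespace Pool.Agent.Results.MP_a55298_gt.NoUniv

open Topology TopologicalSpace

/-- A class of spaces closed under spaces that embed in a member (subspaces and homeomorphic
images), countable sums, countable products, and `C_k(X, Y)` for Lindelof `X`. -/
def CkStable (𝒳 : (X : Type) → TopologicalSpace X → Prop) : Prop :=
  (∀ (X Y : Type) [tX : TopologicalSpace X] [tY : TopologicalSpace Y] (e : X → Y),
    IsEmbedding e → 𝒳 Y tY → 𝒳 X tX) ∧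
  (∀ (ι : Type) [Countable ι] (A : ι → Type) [t : ∀ i, TopologicalSpace (A i)],
    (∀ i, 𝒳 (A i) (t i)) → 𝒳 (Σ i, A i) inferInstance ∧ 𝒳 (∀ i, A i) inferInstance) ∧
  (∀ (X Y : Type) [tX : TopologicalSpace X] [tY : TopologicalSpace Y] [LindelofSpace X],
    𝒳 X tX → 𝒳 Y tY → 𝒳 C(X, Y) ContinuousMap.compactOpen)

/-- `X` belongs to the smallest `C_k`-stable class containing all separable metrizable spaces. -/
def InCM0 (X : Type) [t : TopologicalSpace X] : Prop :=
  ∀ 𝒳 : (X : Type) → TopologicalSpace X → Prop, CkStable 𝒳 →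
    (∀ (M : Type) [tM : TopologicalSpace M] [MetrizableSpace M] [SeparableSpace M], 𝒳 M tM) →
    𝒳 X t

open Pool.Agent.H17.Pb in
theorem result (U : Type) [TopologicalSpace U] (hU : InCM0 U) :
    ∃ (Z : Type) (_ : TopologicalSpace Z), InCM0 Z ∧ ¬ ∃ e : Z → U, IsEmbedding e := by
  have h1 : T2Space U ∧ PB U := by
    refine hU (fun X _ => T2Space X ∧ PB X) ⟨?_, ?_, ?_⟩ ?_
    · rintro X Y _ _ e he ⟨h1, h2⟩
      exact ⟨he.t2Space, of_emb he h2⟩
    · intro ι _ A _ h
      have := fun i => (h i).1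
      exact ⟨⟨inferInstance, of_sigma fun i => (h i).2⟩, inferInstance, of_pi fun i => (h i).2⟩
    · rintro X Y _ _ _ ⟨h1, h2⟩ ⟨h3, h4⟩
      exact ⟨inferInstance, of_ck h2 h4⟩
    · intro M _ _ _
      let := metrizableSpaceMetric M
      have := UniformSpace.secondCountable_of_separable M
      exact ⟨inferInstance, of_sc⟩
  obtain ⟨h1, h2⟩ := h1
  obtain ⟨j, hj⟩ := inj h2
  obtain ⟨Z, hZ⟩ := no_univ U j hj
  exact ⟨C(Z, ℝ), inferInstance, fun 𝒳 hs hm => hs.2.2 Z ℝ (hm Z) (hm ℝ), hZ⟩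

end Pool.Agent.Results.MP_a55298_gt.NoUniv
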